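import Mathlib
import Pool.Agent.H68R2.BP.Props2

open scoped ComplexOrder InnerProductSpace ComplexConjugate Topology
open Finset Filter

noncomputable section

namespace H68R2.BP

open H759R2.Kad H744R2.KZ

namespace T_grpUaux

variable {H : Type} [NormedAddCommGroup H] [InnerProductSpace ℂ H] [CompleteSpace H]

theorem exp_mul_congr (a b c : H →L[ℂ] H) (hac : a * c = b * c)
    (hb : b * c = c * b) :
    NormedSpace.exp a * c = NormedSpace.exp b * c := by
  have hpow : ∀ n : ℕ, a ^ n * c = b ^ n * c := by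
    intro n
    induction n with
    | zero => simp
    | succ n ih =>
      rw [pow_succ, pow_succ, mul_assoc, hac, hb, ← mul_assoc, ih, mul_assoc, mul_assoc, hb]
  have h1 := (NormedSpace.exp_series_hasSum_exp' (𝕂 := ℂ) a).mul_right c
  have h2 := (NormedSpace.exp_series_hasSum_exp' (𝕂 := ℂ) b).mul_right c
  refine h1.unique ?_
  convert h2 using 2 with n
  rw [smul_mul_assoc, smul_mul_assoc, hpow]

/-- the approximating unitaries -/
def Em (h : ℕ → (H →L[ℂ] H)) (m : ℕ) (t : ℝ) : H →L[ℂ] H :=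
  NormedSpace.exp ((Complex.I * t) • h m)

theorem star_Em (h : ℕ → (H →L[ℂ] H)) (hs : ∀ m, star (h m) = h m) (m : ℕ) (t : ℝ) :
    star (Em h m t) = Em h m (-t) := by
  unfold Em
  rw [NormedSpace.star_exp, star_smul, hs]
  congr 2
  simp

theorem Em_zero (h : ℕ → (H →L[ℂ] H)) (m : ℕ) : Em h m 0 = 1 := by
  unfold Em
  simp

theorem Em_mul_neg (h : ℕ → (H →L[ℂ] H)) (m : ℕ) (t : ℝ) : Em h m (-t) * Em h m t = 1 := by
  unfold Em
  let _ : NormedAlgebra ℚ (H →L[ℂ] H) := NormedAlgebra.restrictScalars ℚ ℂ _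
  rw [← NormedSpace.exp_add_of_commute]
  · rw [← add_smul]
    simp
  · exact ((Commute.refl (h m)).smul_left _).smul_right _

theorem inner_Em (h : ℕ → (H →L[ℂ] H)) (hs : ∀ m, star (h m) = h m) (m : ℕ) (t : ℝ) (x y : H) :
    ⟪x, Em h m t y⟫_ℂ = ⟪Em h m (-t) x, y⟫_ℂ := by
  rw [← star_Em h hs, ContinuousLinearMap.star_eq_adjoint, ContinuousLinearMap.adjoint_inner_left]

theorem norm_Em (h : ℕ → (H →L[ℂ] H)) (hs : ∀ m, star (h m) = h m) (m : ℕ) (t : ℝ) (x : H) :
    ‖Em h m t x‖ = ‖x‖ := by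
  have h1 : ⟪Em h m t x, Em h m t x⟫_ℂ = ⟪x, x⟫_ℂ := by
    rw [inner_Em h hs]
    have h2 := DFunLike.congr_fun (Em_mul_neg h m t) x
    exact congrArg (fun z => ⟪z, x⟫_ℂ) h2
  have h2 : ‖Em h m t x‖ ^ 2 = ‖x‖ ^ 2 := by
    rw [← inner_self_eq_norm_sq (𝕜 := ℂ), ← inner_self_eq_norm_sq (𝕜 := ℂ), h1]
  exact (sq_eq_sq₀ (norm_nonneg _) (norm_nonneg _)).1 h2

theorem Em_comm (h c : ℕ → (H →L[ℂ] H)) (hc : ∀ m k, h m * c k = c k * h m) (m k : ℕ) (t : ℝ) :
    Em h m t * c k = c k * Em h m t := by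
  unfold Em
  have h0 : Commute (c k) (h m) := (hc m k).symm
  have h1 : Commute (c k) ((Complex.I * t) • h m) := h0.smul_right _
  exact (h1.exp_right).symm

theorem Em_congr (h c : ℕ → (H →L[ℂ] H)) (hc : ∀ m k, h m * c k = c k * h m)
    (hk : ∀ m k, m ≤ k → h k * c m = h m * c m) (m k : ℕ) (hmk : m ≤ k) (t : ℝ) :
    Em h k t * c m = Em h m t * c m := by
  unfold Em
  apply exp_mul_congr
  · rw [smul_mul_assoc, smul_mul_assoc, hk m k hmk]
  · rw [smul_mul_assoc, mul_smul_comm, hc]

theorem exists_lim (h c : ℕ → (H →L[ℂ] H)) (hs : ∀ m, star (h m) = h m)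
    (hc : ∀ m k, h m * c k = c k * h m)
    (hk : ∀ m k, m ≤ k → h k * c m = h m * c m)
    (hl : ∀ x, Tendsto (fun m => c m x) atTop (𝓝 x)) (t : ℝ) (x : H) :
    ∃ y, Tendsto (fun m => Em h m t x) atTop (𝓝 y) := by
  apply cauchySeq_tendsto_of_complete
  rw [Metric.cauchySeq_iff']
  intro ε hε
  obtain ⟨k, hk1⟩ := ((Metric.tendsto_nhds.1 (hl x)) (ε / 2) (half_pos hε)).exists
  refine ⟨k, fun n hn => ?_⟩
  have h1 : Em h n t (c k x) = Em h k t (c k x) := by
    exact DFunLike.congr_fun (Em_congr h c hc hk k n hn t) x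
  have h2 : Em h n t x - Em h k t x = Em h n t (x - c k x) + Em h k t (c k x - x) := by
    rw [map_sub, map_sub, h1]
    abel
  rw [dist_eq_norm, h2]
  rw [dist_eq_norm] at hk1
  calc ‖Em h n t (x - c k x) + Em h k t (c k x - x)‖
      ≤ ‖Em h n t (x - c k x)‖ + ‖Em h k t (c k x - x)‖ := norm_add_le _ _
    _ = ‖c k x - x‖ + ‖c k x - x‖ := by
        rw [norm_Em h hs, norm_Em h hs, norm_sub_rev x]
    _ < ε := by linarith

end T_grpUaux

open T_grpUaux in
theorem prove_T_grpU : T_grpU := by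
  intro H _ _ _ h c hs hcs hcn hc hhh hcc hk hl
  have hV : ∀ t : ℝ, ∃ V : H →L[ℂ] H, ∀ x, Tendsto (fun m => Em h m t x) atTop (𝓝 (V x)) := by
    intro t
    choose f hf using exists_lim h c hs hc hk hl t
    refine ⟨LinearMap.mkContinuous
      { toFun := f
        map_add' := fun x y => ?_
        map_smul' := fun r x => ?_ } 1 (fun x => ?_), fun x => ?_⟩
    · refine tendsto_nhds_unique (hf (x + y)) ?_
      simpa only [map_add] using (hf x).add (hf y)
    · refine tendsto_nhds_unique (hf (r • x)) ?_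
      simpa only [map_smul, RingHom.id_apply] using (hf x).const_smul r
    · rw [one_mul]
      refine le_of_tendsto (hf x).norm (Eventually.of_forall fun m => ?_)
      rw [norm_Em h hs]
    · exact hf x
  choose U hU using hV
  have hcU : ∀ t m, U t * c m = Em h m t * c m := by
    intro t m
    ext x
    refine tendsto_nhds_unique (hU t (c m x)) ?_
    refine tendsto_const_nhds.congr' ?_
    filter_upwards [eventually_ge_atTop m] with n hn
    show (Em h m t * c m) x = Em h n t (c m x)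
    rw [← Em_congr h c hc hk m n hn t]
    rfl
  have hn : ∀ t x, ‖U t x‖ ≤ ‖x‖ := by
    intro t x
    refine le_of_tendsto (hU t x).norm (Eventually.of_forall fun m => ?_)
    rw [norm_Em h hs]
  refine ⟨U, ?_, ?_, ?_, ?_, ?_, ?_⟩
  · ext x
    refine tendsto_nhds_unique (hU 0 x) ?_
    simp only [Em_zero]
    exact tendsto_const_nhds
  · intro t
    ext x
    apply ext_inner_right ℂ
    intro y
    rw [ContinuousLinearMap.star_eq_adjoint, ContinuousLinearMap.adjoint_inner_left]
    have h1 : Tendsto (fun m => ⟪x, Em h m t y⟫_ℂ) atTop (𝓝 ⟪x, U t y⟫_ℂ) :=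
      tendsto_const_nhds.inner (hU t y)
    have h2 : Tendsto (fun m => ⟪Em h m (-t) x, y⟫_ℂ) atTop (𝓝 ⟪U (-t) x, y⟫_ℂ) :=
      (hU (-t) x).inner tendsto_const_nhds
    simp only [inner_Em h hs] at h1
    exact tendsto_nhds_unique h1 h2
  · intro t
    refine ContinuousLinearMap.opNorm_le_bound _ zero_le_one fun x => ?_
    rw [one_mul]
    exact hn t x
  · intro x
    have hcont : ∀ k, Continuous fun t => U t (c k x) := by
      intro k
      have h1 : (fun t => U t (c k x)) = fun t => Em h k t (c k x) := by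
        funext t
        exact DFunLike.congr_fun (hcU t k) x
      rw [h1]
      unfold Em
      let _ : NormedAlgebra ℚ (H →L[ℂ] H) := NormedAlgebra.restrictScalars ℚ ℂ _
      have h2 : Continuous fun t : ℝ => NormedSpace.exp ((Complex.I * t) • h k) :=
        (NormedSpace.exp_continuous (𝔸 := H →L[ℂ] H)).comp (by fun_prop)
      exact h2.clm_apply continuous_const
    have hu : TendstoUniformly (fun k t => U t (c k x)) (fun t => U t x) atTop := by
      rw [Metric.tendstoUniformly_iff]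
      intro ε hε
      filter_upwards [(Metric.tendsto_nhds.1 (hl x)) ε hε] with k hk1 t
      rw [dist_eq_norm, ← map_sub]
      rw [dist_eq_norm, norm_sub_rev] at hk1
      exact (hn t _).trans_lt hk1
    exact hu.continuous (Eventually.of_forall hcont).frequently
  · intro t m
    ext x
    refine tendsto_nhds_unique (hU t (c m x)) ?_
    have h1 : Tendsto (fun n => c m (Em h n t x)) atTop (𝓝 (c m (U t x))) :=
      ((c m).continuous.tendsto _).comp (hU t x)
    refine h1.congr fun n => ?_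
    exact (DFunLike.congr_fun (Em_comm h c hc n m t) x).symm
  · exact hcU

end H68R2.BP
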